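import Pool.Agent.H66.SYM.Basic

/-!
# The mean of Rankin-Selberg theory
-/

namespace Pool.H66.SYM

open Filter Topology

noncomputable section

/-- the weights -/
def MEA_w (A : Aut) (x : ℝ) (v : A.Pl) : ℝ := A.ab v (A.Fr v) ^ x

theorem MEA_w_pos (A : Aut) (x : ℝ) (v : A.Pl) : 0 < MEA_w A x v :=
  Real.rpow_pos_of_pos (A.ab_pos v _) x

theorem MEA_w_summ (A : Aut) {x : ℝ} (hx : 1 < x) : Summable (MEA_w A x) := A.summ x hx

theorem MEA_S_pos (A : Aut) {x : ℝ} (hx : 1 < x) : 0 < ∑' v, MEA_w A x v :=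
  (MEA_w_summ A hx).tsum_pos (fun v => (MEA_w_pos A x v).le) A.inf (MEA_w_pos A x _)

/-- the weighted mean -/
def MEA_M (A : Aut) (f : A.Pl → ℂ) (x : ℝ) : ℂ :=
  (∑' v, ((MEA_w A x v : ℝ) : ℂ) * f v) / ((∑' v, MEA_w A x v : ℝ) : ℂ)

theorem MEA_summ (A : Aut) {x : ℝ} (hx : 1 < x) {f : A.Pl → ℂ} (hf : Bd f) :
    Summable fun v => ((MEA_w A x v : ℝ) : ℂ) * f v := by
  obtain ⟨C, hC⟩ := hf
  refine Summable.of_norm_bounded ((MEA_w_summ A hx).mul_right C) fun v => ?_
  rw [norm_mul, Complex.norm_real, Real.norm_of_nonneg (MEA_w_pos A x v).le]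
  exact mul_le_mul_of_nonneg_left (hC v) (MEA_w_pos A x v).le

theorem MEA_bound (A : Aut) {x : ℝ} (hx : 1 < x) {f : A.Pl → ℂ} {C : ℝ}
    (hC : ∀ v, ‖f v‖ ≤ C) : ‖MEA_M A f x‖ ≤ C := by
  have hS := MEA_S_pos A hx
  unfold MEA_M
  rw [norm_div, Complex.norm_real, Real.norm_of_nonneg hS.le, div_le_iff₀ hS]
  have h1 : Summable fun v => ‖((MEA_w A x v : ℝ) : ℂ) * f v‖ := (MEA_summ A hx ⟨C, hC⟩).norm
  refine (norm_tsum_le_tsum_norm h1).trans ?_
  rw [← tsum_mul_left]
  refine h1.tsum_le_tsum (fun v => ?_) ((MEA_w_summ A hx).mul_left C)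
  rw [norm_mul, Complex.norm_real, Real.norm_of_nonneg (MEA_w_pos A x v).le, mul_comm]
  exact mul_le_mul_of_nonneg_right (hC v) (MEA_w_pos A x v).le

/-- an ultrafilter finer than the right neighbourhoods of `1` -/
def MEA_U : Ultrafilter ℝ := Ultrafilter.of (𝓝[>] (1 : ℝ))

theorem MEA_U_le : (MEA_U : Filter ℝ) ≤ 𝓝[>] (1 : ℝ) := Ultrafilter.of_le _

theorem MEA_U_gt : ∀ᶠ x in (MEA_U : Filter ℝ), 1 < x :=
  MEA_U_le self_mem_nhdsWithin

/-- the mean -/
def MEA_m (A : Aut) (f : A.Pl → ℂ) : ℂ := limUnder (MEA_U : Filter ℝ) (MEA_M A f)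

theorem MEA_tendsto (A : Aut) {f : A.Pl → ℂ} (hf : Bd f) :
    Tendsto (MEA_M A f) (MEA_U : Filter ℝ) (𝓝 (MEA_m A f)) := by
  obtain ⟨C, hC⟩ := hf
  have hK : IsCompact (Metric.closedBall (0 : ℂ) C) := isCompact_closedBall _ _
  have h1 : ((MEA_U.map (MEA_M A f) : Ultrafilter ℂ) : Filter ℂ) ≤
      𝓟 (Metric.closedBall (0 : ℂ) C) := by
    rw [Ultrafilter.coe_map, Filter.le_principal_iff, Filter.mem_map]
    filter_upwards [MEA_U_gt] with x hx
    simp only [Set.mem_preimage, Metric.mem_closedBall, dist_zero_right]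
    exact MEA_bound A hx hC
  obtain ⟨y, -, hy⟩ := hK.ultrafilter_le_nhds _ h1
  have h2 : Tendsto (MEA_M A f) (MEA_U : Filter ℝ) (𝓝 y) := hy
  rw [MEA_m, h2.limUnder_eq]
  exact h2

theorem s_MEA : S_MEA := by
  intro A
  have hadd : ∀ f g : A.Pl → ℂ, Bd f → Bd g → Bd (f + g) := by
    rintro f g ⟨C, hC⟩ ⟨D, hD⟩
    exact ⟨C + D, fun v => (norm_add_le _ _).trans (add_le_add (hC v) (hD v))⟩
  have hone : Bd (1 : A.Pl → ℂ) := ⟨1, fun v => by simp⟩
  have hsm : ∀ (a : ℂ) (f : A.Pl → ℂ), Bd f → Bd (fun v => a * f v) := by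
    rintro a f ⟨C, hC⟩
    exact ⟨‖a‖ * C, fun v => by
      rw [norm_mul]; exact mul_le_mul_of_nonneg_left (hC v) (norm_nonneg _)⟩
  have hcj : ∀ f : A.Pl → ℂ, Bd f → Bd (cj f) := by
    rintro f ⟨C, hC⟩
    exact ⟨C, fun v => by simpa [cj] using hC v⟩
  refine ⟨⟨MEA_m A, ?_, ?_, ?_, ?_, ?_⟩, ?_⟩
  · refine tendsto_nhds_unique (MEA_tendsto A hone) ?_
    refine tendsto_const_nhds.congr' ?_
    filter_upwards [MEA_U_gt] with x hx
    have hS := MEA_S_pos A hx
    unfold MEA_M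
    simp only [Pi.one_apply, mul_one]
    rw [← Complex.ofReal_tsum, div_self]
    exact_mod_cast hS.ne'
  · intro f g hf hg
    refine tendsto_nhds_unique (MEA_tendsto A (hadd f g hf hg)) ?_
    refine ((MEA_tendsto A hf).add (MEA_tendsto A hg)).congr' ?_
    filter_upwards [MEA_U_gt] with x hx
    unfold MEA_M
    rw [← add_div, ← (MEA_summ A hx hf).tsum_add (MEA_summ A hx hg)]
    congr 1
    exact tsum_congr fun v => by rw [Pi.add_apply, mul_add]
  · intro a f hf
    refine tendsto_nhds_unique (MEA_tendsto A (hsm a f hf)) ?_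
    refine ((MEA_tendsto A hf).const_mul a).congr' ?_
    filter_upwards [MEA_U_gt] with x hx
    unfold MEA_M
    rw [← mul_div_assoc, ← tsum_mul_left]
    congr 1
    exact tsum_congr fun v => by ring
  · intro f hf
    refine tendsto_nhds_unique (MEA_tendsto A (hcj f hf)) ?_
    refine ((Complex.continuous_conj.tendsto _).comp (MEA_tendsto A hf)).congr' ?_
    filter_upwards [MEA_U_gt] with x hx
    simp only [Function.comp]
    unfold MEA_M
    rw [map_div₀, Complex.conj_ofReal, Complex.conj_tsum]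
    congr 1
    exact tsum_congr fun v => by rw [map_mul, Complex.conj_ofReal]; rfl
  · intro f hf hr
    choose r hr0 hr using hr
    have h1 := MEA_tendsto A hf
    have h2 : ∀ x, MEA_M A f x = (((∑' v, MEA_w A x v * r v) / (∑' v, MEA_w A x v) : ℝ) : ℂ) := by
      intro x
      have h4 : ∑' v, ((MEA_w A x v : ℝ) : ℂ) * f v =
          ((∑' v, MEA_w A x v * r v : ℝ) : ℂ) := by
        rw [Complex.ofReal_tsum]
        refine tsum_congr fun v => ?_
        rw [hr v, Complex.ofReal_mul]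
      unfold MEA_M
      rw [Complex.ofReal_div, h4]
    refine ⟨(MEA_m A f).re, ?_, ?_⟩
    · refine ge_of_tendsto ((Complex.continuous_re.tendsto _).comp h1) (Eventually.of_forall ?_)
      intro x
      simp only [Function.comp]
      rw [h2 x, Complex.ofReal_re]
      exact div_nonneg (tsum_nonneg fun v => mul_nonneg (MEA_w_pos A x v).le (hr0 v))
        (tsum_nonneg fun v => (MEA_w_pos A x v).le)
    · have h3 : (MEA_m A f).im = 0 := by
        refine tendsto_nhds_unique ((Complex.continuous_im.tendsto _).comp h1) ?_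
        refine tendsto_const_nhds.congr fun x => ?_
        simp only [Function.comp]
        rw [h2 x, Complex.ofReal_im]
      apply Complex.ext
      · simp
      · simp [h3]
  · intro σ σ' h h'
    obtain ⟨r1, r2⟩ := A.rs σ σ' h h'
    constructor
    · intro e
      exact ((r1 e).mono_left MEA_U_le).limUnder_eq
    · intro e
      exact ((r2 e).mono_left MEA_U_le).limUnder_eq

end

end Pool.H66.SYM
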